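import Pool.Agent.Helper11.KS.Sheet
import Pool.Agent.Helper73.NH.TREE

/-! Row NADJ of project KS (MP_665203_co): two separate stars are impossible. -/

open MeasureTheory Metric Set Filter Topology Real
open scoped ENNReal NNReal

namespace H11ST
namespace KS
open NH

namespace Nadj

/-- two tripod points with six arms, all of line points up to the circle of radius `ρ` -/
structure Two (S : Set (E 2)) (ρ : ℝ) (B : Fin 2 → E 2) (U : Fin 2 → Fin 3 → E 2)
    (C : Fin 2 → Fin 3 → ℝ) : Prop where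
  ne : B 0 ≠ B 1
  lt : ∀ k, ‖B k‖ < ρ
  tri : ∀ k, ∃ ε, Tri S (B k) (U k) ε
  lin : ∀ k i, ∀ s : ℝ, 0 < s → ‖B k + s • U k i‖ ≤ ρ → ∃ δ, Lin S (B k + s • U k i) (U k i) δ
  cp : ∀ k i, 0 < C k i
  ce : ∀ k i, ‖B k + C k i • U k i‖ = ρ

variable {S : Set (E 2)} {ρ : ℝ} {B : Fin 2 → E 2} {U : Fin 2 → Fin 3 → E 2}
    {C : Fin 2 → Fin 3 → ℝ}

/-- the six segments -/
def sg (B : Fin 2 → E 2) (U : Fin 2 → Fin 3 → E 2) (C : Fin 2 → Fin 3 → ℝ) (p : Fin 2 × Fin 3) :
    Set (E 2) := segment ℝ (B p.1) (B p.1 + C p.1 p.2 • U p.1 p.2)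

theorem unit (h : Two S ρ B U C) (k : Fin 2) (i : Fin 3) : ‖U k i‖ = 1 := by
  obtain ⟨ε, T⟩ := h.tri k
  exact T.norm i

theorem sg_form (h : Two S ρ B U C) {p : Fin 2 × Fin 3} {z : E 2} (hz : z ∈ sg B U C p) :
    ∃ s, 0 ≤ s ∧ s ≤ C p.1 p.2 ∧ z = B p.1 + s • U p.1 p.2 := by
  unfold sg at hz
  rw [segment_eq_image'] at hz
  obtain ⟨θ, ⟨h0, h1⟩, rfl⟩ := hz
  have hc := h.cp p.1 p.2
  refine ⟨θ * C p.1 p.2, mul_nonneg h0 hc.le, mul_le_of_le_one_left hc.le h1, ?_⟩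
  simp only [add_sub_cancel_left, smul_smul]

theorem sg_norm (h : Two S ρ B U C) {k : Fin 2} {i : Fin 3} {s : ℝ} (h0 : 0 ≤ s)
    (h1 : s ≤ C k i) : ‖B k + s • U k i‖ ≤ ρ := by
  rcases h1.lt_or_eq with h2 | h2
  · exact (norm_ray_lt h0 h2 (h.lt k) (h.ce k i).le).le
  · rw [h2]
    exact (h.ce k i).le

theorem base_ne (h : Two S ρ B U C) {k l : Fin 2} (hkl : k ≠ l) : B k ≠ B l := by
  have h0 := h.ne
  fin_cases k <;> fin_cases l
  · exact absurd rfl hkl
  · exact h0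
  · exact h0.symm
  · exact absurd rfl hkl

/-- no tripod point on an arm -/
theorem no_tri (h : Two S ρ B U C) {k l : Fin 2} {i : Fin 3} {s : ℝ} (h0 : 0 < s)
    (he : B l = B k + s • U k i) : False := by
  obtain ⟨ε, T⟩ := h.tri l
  obtain ⟨δ, hL⟩ := h.lin k i s h0 (by rw [← he]; exact (h.lt l).le)
  rw [← he] at hL
  exact lin_not_tri hL T

theorem meet (h : Two S ρ B U C) {p q : Fin 2 × Fin 3} (hpq : p ≠ q) {z : E 2}
    (hz : z ∈ sg B U C p) (hz' : z ∈ sg B U C q) : z = B p.1 := by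
  obtain ⟨s, s0, s1, rfl⟩ := sg_form h hz
  obtain ⟨t, t0, t1, e⟩ := sg_form h hz'
  obtain ⟨k, i⟩ := p
  obtain ⟨l, j⟩ := q
  simp only at s1 t1 e ⊢
  rcases eq_or_ne k l with rfl | hkl
  · have hij : i ≠ j := fun hij => hpq (by rw [hij])
    have e2 : s • U k i = t • U k j := add_left_cancel e
    rcases s0.eq_or_lt with hs | hs
    · rw [← hs, zero_smul, add_zero]
    · exfalso
      have ht : 0 < t := by
        rcases t0.eq_or_lt with ht | ht
        · rw [← ht, zero_smul] at e2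
          have h5 := congrArg norm e2
          rw [norm_smul, unit h k i, norm_zero, mul_one, Real.norm_eq_abs, abs_of_pos hs] at h5
          linarith
        · exact ht
      obtain ⟨-, h6⟩ := pos_smul_unit (unit h k i) (unit h k j) hs ht e2
      obtain ⟨ε, T⟩ := h.tri k
      exact hij (tri_inj T h6)
  · exfalso
    rcases s0.eq_or_lt with hs | hs
    · rw [← hs, zero_smul, add_zero] at e
      rcases t0.eq_or_lt with ht | ht
      · rw [← ht, zero_smul, add_zero] at e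
        exact base_ne h hkl e
      · exact no_tri h ht e
    · rcases t0.eq_or_lt with ht | ht
      · rw [← ht, zero_smul, add_zero] at e
        exact no_tri h hs e.symm
      · obtain ⟨δ, hL⟩ := h.lin k i s hs (sg_norm h hs.le s1)
        obtain ⟨δ', hL'⟩ := h.lin l j t ht (sg_norm h ht.le t1)
        rw [← e] at hL'
        rcases lin_dir hL hL' with hd | hd
        · rw [hd] at e
          rcases lt_trichotomy s t with hst | hst | hst
          · refine no_tri h (k := l) (l := k) (i := j) (s := t - s) (by linarith) ?_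
            rw [hd, sub_smul, ← add_sub_assoc, ← e, add_sub_cancel_right]
          · rw [hst] at e
            exact base_ne h hkl (add_right_cancel e)
          · refine no_tri h (k := k) (l := l) (i := i) (s := s - t) (by linarith) ?_
            rw [sub_smul, ← add_sub_assoc, e, add_sub_cancel_right]
        · rw [hd, smul_neg] at e
          refine no_tri h (k := k) (l := l) (i := i) (s := s + t) (by linarith) ?_
          rw [add_smul, ← add_assoc, e, neg_add_cancel_right]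

theorem end_mem (p : Fin 2 × Fin 3) : B p.1 + C p.1 p.2 • U p.1 p.2 ∈ sg B U C p :=
  right_mem_segment ℝ _ _

theorem end_inj (h : Two S ρ B U C) :
    Function.Injective (fun p : Fin 2 × Fin 3 => B p.1 + C p.1 p.2 • U p.1 p.2) := by
  intro p q hpq
  by_contra hne
  simp only at hpq
  have h1 : B p.1 + C p.1 p.2 • U p.1 p.2 ∈ sg B U C q := by
    rw [hpq]
    exact end_mem q
  have h2 := meet h hne (end_mem p) h1
  have h3 := h.ce p.1 p.2
  rw [h2] at h3
  have h4 := h.lt p.1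
  linarith

theorem sg_compact (p : Fin 2 × Fin 3) : IsCompact (sg B U C p) := by
  unfold sg
  rw [segment_eq_image_lineMap]
  exact isCompact_Icc.image (by fun_prop)

theorem sg_sub (h : Two S ρ B U C) (p : Fin 2 × Fin 3) : sg B U C p ⊆ S := by
  intro z hz
  obtain ⟨s, s0, s1, rfl⟩ := sg_form h hz
  rcases s0.eq_or_lt with hs | hs
  · rw [← hs, zero_smul, add_zero]
    obtain ⟨ε, T⟩ := h.tri p.1
    exact tri_ymem T
  · obtain ⟨δ, hL⟩ := h.lin p.1 p.2 s hs (sg_norm h s0 s1)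
    exact hL.z_mem

theorem sg_ball (h : Two S ρ B U C) (p : Fin 2 × Fin 3) : sg B U C p ⊆ closedBall 0 ρ := by
  intro z hz
  obtain ⟨s, s0, s1, rfl⟩ := sg_form h hz
  rw [mem_closedBall_zero_iff]
  exact sg_norm h s0 s1

/-- the union is open in `S` except for the ends -/
theorem loc (h : Two S ρ B U C) {p : Fin 2 × Fin 3} {z : E 2} (hz : z ∈ sg B U C p)
    (hne : z ≠ B p.1 + C p.1 p.2 • U p.1 p.2) :
    ∃ ε > 0, S ∩ ball z ε ⊆ ⋃ q, sg B U C q := by
  obtain ⟨s, s0, s1, rfl⟩ := sg_form h hz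
  rcases s0.eq_or_lt with hs | hs
  · obtain ⟨ε, T⟩ := h.tri p.1
    obtain ⟨m, hm, hm'⟩ : ∃ m > 0, ∀ i, m ≤ C p.1 i := by
      refine ⟨min (C p.1 0) (min (C p.1 1) (C p.1 2)), lt_min (h.cp _ _)
        (lt_min (h.cp _ _) (h.cp _ _)), ?_⟩
      intro i
      fin_cases i
      · exact min_le_left _ _
      · exact (min_le_right _ _).trans (min_le_left _ _)
      · exact (min_le_right _ _).trans (min_le_right _ _)
    refine ⟨min ε m, lt_min T.pos hm, ?_⟩
    rw [← hs, zero_smul, add_zero]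
    have T' := T.mono (lt_min T.pos hm) (min_le_left _ _)
    rw [T'.eq]
    rintro w ⟨i, t, t0, t1, rfl⟩
    refine mem_iUnion.2 ⟨(p.1, i), ?_⟩
    exact mem_seg t0 ((t1.le.trans (min_le_right _ _)).trans (hm' i)) (h.cp _ _)
  · have hlt : s < C p.1 p.2 := by
      refine lt_of_le_of_ne s1 ?_
      rintro rfl
      exact hne rfl
    obtain ⟨δ, hL⟩ := h.lin p.1 p.2 s hs (sg_norm h s0 s1)
    refine ⟨min δ (min s (C p.1 p.2 - s)), lt_min hL.pos (lt_min hs (by linarith)), ?_⟩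
    rintro v ⟨hv, hvb⟩
    have h3 : v ∈ S ∩ ball (B p.1 + s • U p.1 p.2) δ :=
      ⟨hv, ball_subset_ball (min_le_left _ _) hvb⟩
    rw [hL.eq] at h3
    obtain ⟨t, -, rfl⟩ := h3
    rw [mem_ball, gdist' hL.unit, lt_min_iff, lt_min_iff] at hvb
    obtain ⟨-, k1, k2⟩ := hvb
    have k3 := abs_lt.1 k1
    have k4 := abs_lt.1 k2
    refine mem_iUnion.2 ⟨p, ?_⟩
    rw [add_assoc, ← add_smul]
    exact mem_seg (by linarith [k3.1]) (by linarith [k4.2]) (h.cp _ _)

theorem length (h : Two S ρ B U C) :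
    μH[1] (⋃ p, sg B U C p) = ENNReal.ofReal (∑ p : Fin 2 × Fin 3, C p.1 p.2) := by
  rw [measure_iUnion₀, tsum_fintype, ENNReal.ofReal_sum_of_nonneg fun p _ => (h.cp _ _).le]
  · refine Finset.sum_congr rfl fun p _ => ?_
    unfold sg
    rw [hausdorffMeasure_segment, edist_comm, edist_dist, gdist' (unit h _ _),
      abs_of_pos (h.cp _ _)]
  · intro p q hpq
    refine measure_mono_null (t := {B p.1}) ?_ ?_
    · rintro z ⟨h1, h2⟩
      exact meet h hpq h1 h2
    · haveI := Measure.noAtoms_hausdorff (E 2) (d := 1) one_pos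
      exact measure_singleton _
  · intro p
    exact (sg_compact p).isClosed.measurableSet.nullMeasurableSet

/-- the exchange -/
theorem exch (hE : KS_EXCH) (hC : KS_CH6) {A : Set (E 2)} {r : ℝ} (H : Setup A S r)
    (h : Two S ρ B U C) (h0 : 0 < ρ) (h1 : ρ < 1) : ∑ p : Fin 2 × Fin 3, C p.1 p.2 ≤ 5 * ρ := by
  obtain ⟨P, hP⟩ : ∃ P : Finset (E 2), P =
      Finset.univ.image (fun p : Fin 2 × Fin 3 => B p.1 + C p.1 p.2 • U p.1 p.2) := ⟨_, rfl⟩
  have hPm : ∀ z, z ∈ P ↔ ∃ p : Fin 2 × Fin 3, B p.1 + C p.1 p.2 • U p.1 p.2 = z := by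
    intro z
    rw [hP]
    simp only [Finset.mem_image, Finset.mem_univ, true_and]
  have hcard : P.card = 6 := by
    rw [hP, Finset.card_image_of_injective _ (end_inj h)]
    simp
  have hn : ∀ p ∈ P, ‖p‖ = ρ := by
    intro z hz
    obtain ⟨p, rfl⟩ := (hPm z).1 hz
    exact h.ce _ _
  obtain ⟨F, hF1, hF2, hF3, hF4, hF5⟩ := hC ρ h0 P hcard hn
  have hball : closedBall (0 : E 2) ρ ⊆ ball 0 r := closedBall_subset_ball (h1.trans H.r1)
  have key := hE A S r H.L H.cl (⋃ p, sg B U C p) F ∅ P (isCompact_iUnion fun p => sg_compact p)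
    (iUnion_subset fun p => sg_sub h p) ((iUnion_subset fun p => sg_ball h p).trans hball)
    (by rw [← Finset.card_pos, hcard]; norm_num) ?_ ?_ hF1 (hF4.trans hball)
    (empty_subset _) (fun z hz => absurd hz (notMem_empty z)) (by rwa [union_empty])
    (fun z hz => Or.inl (hF3 z hz))
  · rw [length h] at key
    exact (ENNReal.ofReal_le_ofReal_iff (by positivity)).1 (key.trans hF5)
  · intro z hz
    obtain ⟨p, rfl⟩ := (hPm z).1 hz
    exact mem_iUnion.2 ⟨p, end_mem p⟩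
  · intro z hz hzP
    obtain ⟨p, hp⟩ := mem_iUnion.1 hz
    exact loc h hp fun e => hzP ((hPm z).2 ⟨p, e.symm⟩)

/-- sums over the three directions -/
theorem sums {y : E 2} {u : Fin 3 → E 2} {ε : ℝ} (T : Tri S y u ε) (b : E 2) :
    ∑ i, inner ℝ b (u i) = (0 : ℝ) ∧ ∑ i, inner ℝ b (u i) ^ 2 = 3 / 2 * ‖b‖ ^ 2 := by
  obtain ⟨α, hα⟩ := unit_ev (T.norm 0)
  obtain ⟨j, k, hj, hk, hjk, ej, ek⟩ := tri_two T hα
  have hs : ∀ f : Fin 3 → ℝ, ∑ i, f i = f 0 + f j + f k := by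
    intro f
    rw [Fin.sum_univ_three]
    fin_cases j <;> fin_cases k <;> simp at hj hk hjk ⊢ <;> ring
  rw [hs, hs, hα, ej, ek, PU.norm2, PU.inner2, PU.inner2, PU.inner2]
  have e0 : ∀ θ, (ev θ) 0 = cos θ := fun θ => rfl
  have e1 : ∀ θ, (ev θ) 1 = sin θ := fun θ => rfl
  rw [e0, e0, e0, e1, e1, e1, cos_add, cos_sub, sin_add, sin_sub, cos120, sin120]
  have h3 := PU.s3
  have hsc := sin_sq_add_cos_sq α
  constructor
  · ring
  · have h4 : √3 ^ 2 = 3 := by rw [pow_two]; exact h3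
    ring_nf
    rw [h4]
    linear_combination (3 / 2 * (b 0 ^ 2 + b 1 ^ 2)) * hsc

/-- the exit of an arm -/
theorem exit {b u : E 2} (hb : ‖b‖ < 3 / 10) (hu : ‖u‖ = 1) : ∃ c : ℝ, 0 < c ∧
    ‖b + c • u‖ = 49 / 100 ∧
    49 / 100 - inner ℝ b u - 114 / 100 * (‖b‖ ^ 2 - inner ℝ b u ^ 2) ≤ c := by
  obtain ⟨x, hx⟩ : ∃ x : ℝ, x = inner ℝ b u := ⟨_, rfl⟩
  rw [← hx]
  have hx2 : x ^ 2 ≤ ‖b‖ ^ 2 := by
    have h1 := abs_real_inner_le_norm b u
    rw [hu, mul_one, ← hx] at h1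
    exact sq_le_sq' (by linarith [neg_abs_le x]) ((le_abs_self x).trans h1)
  have hb2 : ‖b‖ ^ 2 ≤ 9 / 100 := by nlinarith [norm_nonneg b]
  obtain ⟨h, hh⟩ : ∃ h : ℝ, h = ‖b‖ ^ 2 - x ^ 2 := ⟨_, rfl⟩
  have h0 : 0 ≤ h := by rw [hh]; linarith
  have h1 : h ≤ 9 / 100 := by rw [hh]; nlinarith [sq_nonneg x]
  obtain ⟨w, hw⟩ : ∃ w, w = √((49 / 100) ^ 2 - h) := ⟨_, rfl⟩
  have hw2 : w ^ 2 = (49 / 100) ^ 2 - h := by
    rw [hw, Real.sq_sqrt (by linarith)]
  have hw0 : 0 ≤ w := by rw [hw]; positivity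
  have hw1 : 49 / 100 - 114 / 100 * h ≤ w := by
    rw [hw]
    apply Real.le_sqrt_of_sq_le
    nlinarith
  have hwx : |x| < w := by
    refine abs_lt_of_sq_lt_sq ?_ hw0
    rw [hw2, hh]
    nlinarith
  refine ⟨w - x, by linarith [le_abs_self x], ?_, by rw [← hh]; linarith⟩
  have e : ‖b + (w - x) • u‖ ^ 2 = (49 / 100) ^ 2 := by
    rw [← real_inner_self_eq_norm_sq, inner_add_left, inner_add_right, inner_add_right,
      inner_smul_left, inner_smul_right, inner_smul_left, inner_smul_right,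
      real_inner_self_eq_norm_sq, real_inner_self_eq_norm_sq, real_inner_comm b u, ← hx, hu]
    simp only [conj_trivial]
    rw [hh] at hw2
    linear_combination hw2
  have h5 := norm_nonneg (b + (w - x) • u)
  nlinarith [sq_nonneg (‖b + (w - x) • u‖ - 49 / 100)]

end Nadj

open Nadj

theorem nadj (hE : KS_EXCH) (hC : KS_CH6) : KS_NADJ := by
  intro A S r H b b' hne hb hb' u u' ε ε' T T' hl hl'
  have h1 : ∀ i, ∃ c : ℝ, 0 < c ∧ ‖b + c • u i‖ = 49 / 100 ∧
    49 / 100 - inner ℝ b (u i) - 114 / 100 * (‖b‖ ^ 2 - inner ℝ b (u i) ^ 2) ≤ c :=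
    fun i => exit hb (T.norm i)
  have h2 : ∀ i, ∃ c : ℝ, 0 < c ∧ ‖b' + c • u' i‖ = 49 / 100 ∧
    49 / 100 - inner ℝ b' (u' i) - 114 / 100 * (‖b'‖ ^ 2 - inner ℝ b' (u' i) ^ 2) ≤ c :=
    fun i => exit hb' (T'.norm i)
  choose c c0 c1 c2 using h1
  choose c' c0' c1' c2' using h2
  have hT : Two S (49 / 100) ![b, b'] ![u, u'] ![c, c'] := by
    refine ⟨hne, ?_, ?_, ?_, ?_, ?_⟩
    · intro k
      fin_cases k
      · show ‖b‖ < _
        linarith
      · show ‖b'‖ < _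
        linarith
    · intro k
      fin_cases k
      · exact ⟨ε, T⟩
      · exact ⟨ε', T'⟩
    · intro k i s
      fin_cases k
      · exact hl i s
      · exact hl' i s
    · intro k i
      fin_cases k
      · exact c0 i
      · exact c0' i
    · intro k i
      fin_cases k
      · exact c1 i
      · exact c1' i
  have key := exch hE hC H hT (by norm_num) (by norm_num)
  rw [Fintype.sum_prod_type, Fin.sum_univ_two] at key
  have k1 : ∑ i, c i + ∑ i, c' i ≤ 5 * (49 / 100) := key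
  obtain ⟨s1, s2⟩ := sums T b
  obtain ⟨s1', s2'⟩ := sums T' b'
  have b2 : ‖b‖ ^ 2 ≤ 9 / 100 := by nlinarith [norm_nonneg b]
  have b2' : ‖b'‖ ^ 2 ≤ 9 / 100 := by nlinarith [norm_nonneg b']
  have e1 : ∑ i, (49 / 100 - inner ℝ b (u i) - 114 / 100 * (‖b‖ ^ 2 - inner ℝ b (u i) ^ 2)) ≤
      ∑ i, c i := Finset.sum_le_sum fun i _ => c2 i
  have e2 : ∑ i, (49 / 100 - inner ℝ b' (u' i) - 114 / 100 * (‖b'‖ ^ 2 - inner ℝ b' (u' i) ^ 2)) ≤
      ∑ i, c' i := Finset.sum_le_sum fun i _ => c2' i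
  rw [Fin.sum_univ_three] at s1 s2 s1' s2' e1 e2
  linarith

end KS
end H11ST
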